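import Pool.Agent.Lib.MP_44758c_an.Defs
import Pool.Agent.Lib.MP_44758c_an.Final

set_option autoImplicit false

open MeasureTheory Set Filter Topology
open scoped ENNReal NNReal

namespace Pool.Agent.Results.MP_44758c_an.Counterexample

open Pool.Agent.Lib.MP_44758c_an

lemma measurable_res : @Measurable _ _ (baCp K) MeasurableSpace.pi (res : C(K, ℝ) → (D → ℝ)) := by
  letI := baCp K
  rw [measurable_pi_iff]
  intro d
  have hc : @Continuous _ _ (cpTopology K) inferInstance (fun f : C(K, ℝ) => f (pt d)) := by
    letI := cpTopology K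
    have h1 : Continuous (fun (f : C(K, ℝ)) (x : K) => f x) := continuous_induced_dom
    exact (continuous_apply (pt d)).comp h1
  have h2 : MeasurableSpace.comap (fun f : C(K, ℝ) => f (pt d)) (borel ℝ) ≤ baCp K :=
    le_iSup (fun g : {g : C(K, ℝ) → ℝ // @Continuous _ _ (cpTopology K) inferInstance g} =>
      MeasurableSpace.comap g.1 (borel ℝ)) ⟨_, hc⟩
  have h3 : @Measurable _ _ (baCp K) (borel ℝ) (fun f : C(K, ℝ) => f (pt d)) :=
    measurable_iff_comap_le.mpr h2
  rw [BorelSpace.measurable_eq (α := ℝ)]
  exact h3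

lemma isBaMeasurable_mu : IsBaMeasurable mu := by
  unfold IsBaMeasurable
  have h1 : (fun f : C(K, ℝ) => ∫ x, f x ∂mu) = fun f => Phi (res f) := by
    funext f
    rw [integral_mu, Lam_eq_Phi]
  rw [h1, ← BorelSpace.measurable_eq (α := ℝ)]
  exact @Measurable.comp _ _ _ (baCp K) _ _ _ _ measurable_Phi measurable_res

/-- There are a compact Hausdorff space `K` and a Radon probability measure `μ` on `K` such that
`f ↦ ∫ f dμ` is measurable for the Baire σ-algebra of `C_p(K)`, but `μ` is not in the weak*
sequential closure of the convex hull of the Dirac measures. -/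
theorem result : ∃ (K : Type) (_ : TopologicalSpace K) (_ : CompactSpace K) (_ : T2Space K)
    (_ : MeasurableSpace K) (_ : BorelSpace K) (μ : Measure K),
    μ ∈ ProbK K ∧ IsBaMeasurable μ ∧ μ ∉ SeqCoDirac K := by
  refine ⟨K, inferInstance, inferInstance, inferInstance, inferInstance, inferInstance, mu,
    ⟨inferInstance, inferInstance⟩, isBaMeasurable_mu, fun hmem => ?_⟩
  refine mu_not_mem_cls (hmem Cls ⟨?_, ?_⟩)
  · rintro μ ⟨s, w, hw, rfl⟩
    exact coDirac_mem_cls s w hw
  · intro ν μ hν hμ hlim
    haveI := hμ.1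
    exact cls_seqClosed ν hν μ hlim

end Pool.Agent.Results.MP_44758c_an.Counterexample
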